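import Pool.Agent.H6.LD.Stm

set_option autoImplicit false
open Filter Topology MeasureTheory Pool.Agent.H6.LD

namespace Pool.Agent.H12.LD

theorem avg_diff {f q : ℝ → ℂ} (hf : Measurable f) (hb : ∃ C : ℝ, ∀ t, ‖f t‖ ≤ C) (hq : Continuous q)
    {ε T : ℝ} (hT : 0 < T) (h : ∫ t in (0 : ℝ)..T, ‖f t - q t‖ ≤ ε * T) :
    ‖(((1 / T : ℝ) : ℂ) * ∫ t in (0 : ℝ)..T, f t) - (((1 / T : ℝ) : ℂ) * ∫ t in (0 : ℝ)..T, q t)‖ ≤ ε := by
  obtain ⟨C, hC⟩ := hb
  have hfi : IntervalIntegrable f volume 0 T := by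
    rw [intervalIntegrable_iff]
    refine Measure.integrableOn_of_bounded (M := C) ?_ hf.aestronglyMeasurable ?_
    · simp
    · exact Eventually.of_forall fun t => hC t
  have hqi : IntervalIntegrable q volume 0 T := hq.intervalIntegrable _ _
  rw [← mul_sub, ← intervalIntegral.integral_sub hfi hqi, norm_mul]
  have h1 : ‖((1 / T : ℝ) : ℂ)‖ = 1 / T := by
    rw [Complex.norm_real, Real.norm_of_nonneg (by positivity)]
  rw [h1]
  have h2 : ‖∫ t in (0 : ℝ)..T, (f t - q t)‖ ≤ ∫ t in (0 : ℝ)..T, ‖f t - q t‖ :=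
    intervalIntegral.norm_integral_le_integral_norm hT.le
  have h3 : 1 / T * ‖∫ t in (0 : ℝ)..T, (f t - q t)‖ ≤ 1 / T * (ε * T) :=
    mul_le_mul_of_nonneg_left (h2.trans h) (by positivity)
  have h4 : 1 / T * (ε * T) = ε := by field_simp
  linarith

theorem t_AP1 (hES1 : S_ES1) : S_AP1 := by
  intro M f hf
  refine ⟨?_, ?_⟩
  · have hc : CauchySeq (fun T : ℝ => ((1 / T : ℝ) : ℂ) * ∫ t in (0 : ℝ)..T, f t) := by
      rw [Metric.cauchySeq_iff']
      intro ε hε
      obtain ⟨q, hq, T0, hT0⟩ := hf.app (ε / 8) (by positivity)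
      obtain ⟨hqc, -, n, hn⟩ := hES1 M q hq
      obtain ⟨T1, hT1⟩ := Metric.tendsto_atTop.mp hn (ε / 8) (by positivity)
      have key : ∀ T, max (max T0 T1) 1 ≤ T →
          ‖(((1 / T : ℝ) : ℂ) * ∫ t in (0 : ℝ)..T, f t) - n‖ ≤ ε / 4 := by
        intro T hT
        have ha : T0 ≤ T := le_trans (le_trans (le_max_left _ _) (le_max_left _ _)) hT
        have hb : T1 ≤ T := le_trans (le_trans (le_max_right _ _) (le_max_left _ _)) hT
        have hc : (0 : ℝ) < T := lt_of_lt_of_le zero_lt_one (le_trans (le_max_right _ _) hT)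
        have h1 := avg_diff hf.meas hf.bdd hqc hc (hT0 T ha)
        have h2 := hT1 T hb
        rw [dist_eq_norm] at h2
        have h3 := norm_sub_le_norm_sub_add_norm_sub (((1 / T : ℝ) : ℂ) * ∫ t in (0 : ℝ)..T, f t)
          (((1 / T : ℝ) : ℂ) * ∫ t in (0 : ℝ)..T, q t) n
        linarith
      refine ⟨max (max T0 T1) 1, fun T hT => ?_⟩
      have h1 := key T hT
      have h2 := key _ (le_refl _)
      rw [dist_eq_norm]
      have h3 := norm_sub_le_norm_sub_add_norm_sub (((1 / T : ℝ) : ℂ) * ∫ t in (0 : ℝ)..T, f t) n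
        (((1 / (max (max T0 T1) 1) : ℝ) : ℂ) * ∫ t in (0 : ℝ)..(max (max T0 T1) 1), f t)
      rw [norm_sub_rev n] at h3
      linarith
    obtain ⟨m, hm⟩ := cauchySeq_tendsto_of_complete hc
    exact ⟨m, hm⟩
  · intro q ε hq ⟨T0, hT0⟩ m n hm hn
    obtain ⟨hqc, -, -⟩ := hES1 M q hq
    have h := (hm.sub hn).norm
    refine le_of_tendsto h ?_
    filter_upwards [eventually_ge_atTop T0, eventually_gt_atTop 0] with T ha hb
    exact avg_diff hf.meas hf.bdd hqc hb (hT0 T ha)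

end Pool.Agent.H12.LD
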